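import Mathlib
import Pool.Agent.R120.AntichainDef
import Pool.Agent.R120.AmalgDef
import Pool.Agent.R120.UnspDef
import Pool.Agent.R120.Unsp

set_option autoImplicit false

namespace Pool.Agent.Results.MP_2af702_co.IncomparableUnsplittable

open Pool.Agent.R120.Antichain Pool.Agent.R120.Amalg Pool.Agent.R120.Unsp

/-- There is an unsplittable permutation class that neither contains nor is contained in the class
of separable permutations. -/
theorem result : ∃ C : Set AllPerms, IsClass C ∧ Unsplittable C ∧ ¬ Separables ⊆ C ∧ ¬ C ⊆ Separables := main

end Pool.Agent.Results.MP_2af702_co.IncomparableUnsplittable
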